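import Pool.Agent.Helper22.SL.Defs

/-!
# T5, block SL: sizes of a pair of states (natural logarithms)

`w r` is the size of the level `r < h` and of the windows (`r = h`), `s r` and `s' r` are the leads
of the fronts, `D = log (M / M')`.  Constants: families `(3/8, 3/8, 1/4)`, `θ = 7/20`, leads in
`[5.5, 6.5] / 512`, steps `1 / 512`, all with a little room.
-/

namespace Pool.Agent.Helper87.SL

open Finset Real Pool.Agent.Helper22.SL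

variable {κ : Type*}

/-- sizes of a pair -/
structure Num (P : Pr κ) (D : ℝ) (w s s' : ℕ → ℝ) (K : ℝ) : Prop where
  D0 : 0 ≤ D
  M : (P.M : ℝ) = P.M' * exp D
  M'0 : 0 < P.M'
  F : ∀ r ≤ P.h, (P.F r : ℝ) = P.M * exp (s r)
  F' : ∀ r ≤ P.h, (P.F' r : ℝ) = P.M' * exp (s' r)
  sl : ∀ r ≤ P.h, 0.0107 * w r ≤ s r
  su : ∀ r ≤ P.h, s r ≤ 0.0128 * w r
  sl' : ∀ r ≤ P.h, 0.0107 * w r ≤ s' r
  su' : ∀ r ≤ P.h, s' r ≤ 0.0128 * w r
  q0 : ∀ r < P.h, exp (0.374 * w r) ≤ P.q r 0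
  q1 : ∀ r < P.h, exp (0.374 * w r) ≤ P.q r 1
  q2 : ∀ r < P.h, exp (0.249 * w r) ≤ P.q r 2
  qu : ∀ r < P.h, ∀ i, (P.q r i : ℝ) ≤ exp (w r / 2)
  deep : ∀ r < P.h, 20 * w (r + 1) ≤ w r
  w1 : ∀ r < P.h, 1000 ≤ w r
  w0 : 0 ≤ w P.h
  Dl : ∀ r < P.h, D ≤ 0.351 * w r
  jump : ∀ r, 1 ≤ r → r ≤ P.h → (P.F' r : ℝ) * exp (w r / 512) ≤ P.F r
  K1 : 1 ≤ K
  A : ∀ r ≤ P.h, P.A r ≤ K
  Ap : ∀ r < P.h, P.A r * (P.p r 0 * P.p r 2) ≤ K

/-- the part of the sizes needed for the last level: `W` is the size of the windows, `W0` the size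
of the last level -/
structure NumL (P : Pr κ) (D W W0 s s' K : ℝ) : Prop where
  D0 : 0 ≤ D
  M : (P.M : ℝ) = P.M' * exp D
  M'0 : 0 < P.M'
  F : (P.F P.h : ℝ) = P.M * exp s
  F' : (P.F' P.h : ℝ) = P.M' * exp s'
  sl : 0.0107 * W ≤ s
  su : s ≤ 0.0128 * W
  sl' : 0.0107 * W ≤ s'
  su' : s' ≤ 0.0128 * W
  q2 : ∀ t, P.h = t + 1 → exp (0.249 * W0) ≤ P.q t 2
  deep : 20 * W ≤ W0
  w0 : 0 ≤ W
  Dl : D ≤ 0.351 * W0
  K1 : 1 ≤ K
  A : P.A P.h ≤ K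

theorem Num.toL {P : Pr κ} {D : ℝ} {w s s' : ℕ → ℝ} {K : ℝ} (h : Num P D w s s' K) {t : ℕ}
    (ht : P.h = t + 1) : NumL P D (w P.h) (w t) (s P.h) (s' P.h) K where
  D0 := h.D0
  M := h.M
  M'0 := h.M'0
  F := h.F _ le_rfl
  F' := h.F' _ le_rfl
  sl := h.sl _ le_rfl
  su := h.su _ le_rfl
  sl' := h.sl' _ le_rfl
  su' := h.su' _ le_rfl
  q2 := by
    intro t' ht'
    have e : t' = t := by omega
    subst e
    exact h.q2 t' (by omega)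
  deep := by
    have := h.deep t (by omega)
    rwa [← ht] at this
  w0 := h.w0
  Dl := h.Dl t (by omega)
  K1 := h.K1
  A := h.A _ le_rfl

end Pool.Agent.Helper87.SL
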