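import Pool.Agent.Helper87.SL.Inst
import Pool.Agent.Helper11.T5.Facts
import Pool.Agent.Helper27.T5.Range
import Pool.Agent.Helper22.NEAR.Defs

/-!
# T5a, block NEAR: `hL` for the windows `Bw`, case `7/20 W ≤ D`

`Bw_lt`: size of the windows.  `hL_gen`: `hL_inst` with the regularity in real exponents.
`hL_near`: the same for `Bw`, regularity in the form `RegE` (also for `a + h = k + 1`).
-/

set_option autoImplicit false

namespace Pool.Agent.Helper87.SL

open Pool.Agent.Helper5.ET (Nj era)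
open Finset Pool.Agent.Helper27.T4 Pool.Agent.Helper27.T5
  Pool.Agent.Helper30.T5 Pool.Agent.Helper22.SL Pool.Agent.Helper63.T5
  Pool.Agent.Helper45.T5 Pool.Agent.Helper11.T5 Pool.Agent.Helper57.T5 Pool.Agent.Helper22.NEAR

/-- the windows are below the upper end of the state -/
theorem Zw_lt {m k l s : ℕ} (hd : ∀ t < k,
    2 * (FF m l t * LL (QQ m (era l)) t) ≤ FF m l (t + 1) * LL (QQ m (era l)) (t + 1))
    {w : Key → ℕ} (hs : s ≤ k) {u : ℕ} (hu : u ∈ Zw m k l s w) : u < XA m k (l + 1) := by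
  obtain ⟨y, hy, v, hv, rfl⟩ := mem_Zw.1 hu
  obtain ⟨hv1, hv2⟩ := lt_of_mem_Vw hv
  have hc := codes_lt hd w 0 (fun t : Fin k => y t)
  rw [Fin.sum_univ_eq_sum_range (fun t => cs m l t w (y t)),
    ← Finset.sum_range_add_sum_Ico _ hs] at hc
  have hM : 0 < Nj l * LA m k (era l) := Nat.mul_pos (Nj_pos1 l) (LA_pos _ _ _)
  have h1 : (v + 1) * (Nj l * LA m k (era l)) ≤
      XA m k (l + 1) - 2 * (FF m l k * LA m k (era l)) := by
    refine le_trans (Nat.mul_le_mul_right _ hv2) ?_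
    unfold vhi
    exact Nat.div_mul_le_self _ _
  have h2 : (v + 1) * (Nj l * LA m k (era l)) =
      Nj l * LA m k (era l) * v + Nj l * LA m k (era l) := by ring
  omega

theorem TA_le (m k j : ℕ) : TA m k j ≤ 2 * (10 ^ 6) ^ W m j 1 := by
  unfold TA vlo
  rw [mul_add, mul_one]
  have h1 := Nat.mul_div_le ((10 ^ 6) ^ W m j 1) (LA m k j)
  have h2 := LA_le m k j
  omega

/-- **size of the windows** -/
theorem Bw_lt {m k l s : ℕ} (hd : ∀ t < k,
    2 * (FF m l t * LL (QQ m (era l)) t) ≤ FF m l (t + 1) * LL (QQ m (era l)) (t + 1))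
    {w : Key → ℕ} (hk : k + 2 ≤ m) (hr : 8 ≤ rt m (era l)) (he : era (l + 1) = era l)
    (hs : s ≤ k) {b : ℕ} (hb : b ∈ Bw m k l s w) :
    b < 2000074 * spq (s + 1) * (10 ^ 6) ^ W m (era l) (s + 1) := by
  unfold Bw at hb
  rw [mem_image] at hb
  obtain ⟨u, hu, rfl⟩ := hb
  have h0 := Zw_lt hd hs hu
  set b := u / (Nj l * LL (QQ m (era l)) s) with hbd
  have h1 : b * (Nj l * LL (QQ m (era l)) s) ≤ u := Nat.div_mul_le_self _ _
  have h2 : XA m k (l + 1) ≤ 1000037 * (Nj l * TA m k (era l)) := by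
    have h2 := XT_same_le (TA m k) (Nat.le_succ l) he.symm
    rw [show l + 1 - l = 1 by omega, pow_one] at h2
    exact h2
  have hN := Nj_pos1 l
  have h3 : b * LL (QQ m (era l)) s < 2000074 * (10 ^ 6) ^ W m (era l) 1 := by
    have e1 : Nj l * (b * LL (QQ m (era l)) s) < Nj l * (1000037 * TA m k (era l)) := by
      calc Nj l * (b * LL (QQ m (era l)) s) = b * (Nj l * LL (QQ m (era l)) s) := by ring
        _ ≤ u := h1
        _ < XA m k (l + 1) := h0
        _ ≤ 1000037 * (Nj l * TA m k (era l)) := h2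
        _ = Nj l * (1000037 * TA m k (era l)) := by ring
    have e2 := lt_of_mul_lt_mul_left e1 (Nat.zero_le _)
    have e3 := TA_le m k (era l)
    omega
  have h4 := le_Lp_mul (m := m) (j := era l) (s := s + 1) (by omega) (by omega) hr
  rw [LL_QQ] at h3
  have hW : W m (era l) (s + 1) ≤ W m (era l) 1 := W_anti (by omega)
  have h5 : (10 ^ 6) ^ W m (era l) 1 = (10 ^ 6) ^ (W m (era l) 1 - W m (era l) (s + 1)) *
      (10 ^ 6) ^ W m (era l) (s + 1) := by
    rw [← pow_add]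
    congr 1
    omega
  have hpos : 0 < (10 ^ 6) ^ (W m (era l) 1 - W m (era l) (s + 1)) := by positivity
  have hspq := spq_pos (s + 1)
  have h6 : (10 ^ 6) ^ (W m (era l) 1 - W m (era l) (s + 1)) * b <
      (10 ^ 6) ^ (W m (era l) 1 - W m (era l) (s + 1)) *
        (2000074 * spq (s + 1) * (10 ^ 6) ^ W m (era l) (s + 1)) := by
    calc (10 ^ 6) ^ (W m (era l) 1 - W m (era l) (s + 1)) * b
        ≤ (Lp m (era l) (s + 1) * spq (s + 1)) * b := Nat.mul_le_mul_right _ h4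
      _ = (b * Lp m (era l) (s + 1)) * spq (s + 1) := by ring
      _ < (2000074 * (10 ^ 6) ^ W m (era l) 1) * spq (s + 1) :=
          Nat.mul_lt_mul_of_pos_right h3 hspq
      _ = _ := by rw [h5]; ring
  exact lt_of_mul_lt_mul_left h6 (Nat.zero_le _)

theorem spq_succ {s : ℕ} (hs : 1 ≤ s) : spq (s + 1) = spq s * spp (s + 1) := by
  unfold spq
  rw [Finset.prod_Icc_succ_top (by omega)]

theorem spq_mono {s s' : ℕ} (hs : 1 ≤ s) (h : s ≤ s') : spq s ≤ spq s' := by
  induction s', h using Nat.le_induction with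
  | base => exact le_rfl
  | succ n hn ih =>
    rw [spq_succ (by omega)]
    exact ih.trans (Nat.le_mul_of_pos_right _ (spp_pos _))

variable {κ : Type*} {P : Pr κ} {m k j a l' l : ℕ} {Mk : κ → ℕ} {I : ℕ} {X Ir : ℕ → ℕ}

/-- **(hL) for the schedule**, case `7/20 W ≤ D`, regularity in real exponents. -/
theorem hL_gen (h : PD m k j a l' l) (hM : Mt' P m k j a l' l) (hP : P.Ok Mk) (hX : Tg P I X Ir)
    {CI : ℝ} (hCI : 0 ≤ CI) (hL : LateC m k j (2 * cH k CI))
    (h7 : 7 * W m j (a + P.h) ≤ 20 * (l - l')) {B B' : Finset ℕ} {B0 Q Q' : ℕ}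
    (hB : RegSet B Q (Real.exp ((W m j (a + P.h) : ℝ) / 10000))
      (Real.exp ((W m j (a + P.h) : ℝ) * lam / 2 - (W m j (a + P.h) : ℝ) / 10000)))
    (hB' : RegSet B' Q' (Real.exp ((W m j (a + P.h) : ℝ) / 10000))
      (Real.exp ((W m j (a + P.h) : ℝ) * lam / 2 - (W m j (a + P.h) : ℝ) / 10000)))
    (hQ' : ∀ n, (pj j ^ n).Coprime Q')
    (hb' : ∀ b ∈ B', b < B0)
    (hB0 : (B0 : ℝ) ≤ Real.exp ((W m j (a + P.h) : ℝ) * lam + (W m j (a + P.h) : ℝ) / 10000))
    (hI : (I : ℝ) ≤ Real.exp (CI + ((l - l' : ℕ) : ℝ) * Real.log (pj j) / 2)) {δ : ℝ}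
    (hδ : 100 * δ ≤ W m j (a + P.h)) :
    PP P I X B B' * P.A P.h * P.pc P.h ≤ Real.exp (-δ) := by
  have hhp := hh_pos m k j a (l - l')
  have hhk := hh_le (m := m) (k := k) (j := j) (a := a) (D := l - l') h.ak
  have hPh := hM.h
  have ha := h.a1
  have hkm := h.km
  have hlam := lam_gt
  have hlam2 := lam_lt
  have hp1 := lam_le_pj j
  have hsp1 : (1 : ℝ) ≤ spb k := by exact_mod_cast one_le_spb k
  have hlsp : 0 ≤ Real.log (spb k) := Real.log_nonneg hsp1
  set K : ℝ := (200 * (spb k : ℝ) ^ 2) ^ 3 with hK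
  have hK1 : (1 : ℝ) ≤ K := by
    rw [hK]
    apply one_le_pow₀
    nlinarith
  have g3 : 0 ≤ Real.log (1152 * K) := Real.log_nonneg (by nlinarith)
  have hcH : 0 ≤ cH k CI := by
    unfold cH
    rw [← hK]
    positivity
  set Wn : ℝ := (W m j (a + P.h) : ℝ) with hWn
  have hWn0 : 0 ≤ Wn := Nat.cast_nonneg _
  have hWc := hL.2 (a + P.h) (by omega)
  set D : ℝ := ((l - l' : ℕ) : ℝ) * Real.log (pj j) with hD
  have hDl : 0.35 * (Wn * lam) ≤ D := by
    have e : (7 : ℝ) * Wn ≤ 20 * ((l - l' : ℕ) : ℝ) := by rw [hWn]; exact_mod_cast h7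
    rw [hD]
    have e0 : (0 : ℝ) ≤ ((l - l' : ℕ) : ℝ) := Nat.cast_nonneg _
    calc 0.35 * (Wn * lam) = (0.35 * Wn) * lam := by ring
      _ ≤ ((l - l' : ℕ) : ℝ) * lam := by
          apply mul_le_mul_of_nonneg_right _ (by linarith)
          linarith
      _ ≤ _ := mul_le_mul_of_nonneg_left hp1 e0
  have hNum := numL h hM hCI (CI := CI) ⟨hL.1, fun i hi => le_trans (by linarith) (hL.2 i hi)⟩
  rw [← hK, ← hWn, ← hD] at hNum
  have hcop : (P.F' P.h / P.M').Coprime Q' := by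
    rw [hM.F' P.h (by omega) le_rfl, hM.M', h.NF' (by omega) (by omega),
      Nat.mul_div_cancel_left _ (Pool.Agent.Helper50.ET.Nj_pos _)]
    exact hQ' _
  have hmain := hNum.hL hP hX (by omega) (B := B) (B' := B') (B0 := B0)
    (η := Wn / 10000) (Real.exp_pos _).le (Real.exp_pos _).le (by positivity) hB hB' hcop
    le_rfl le_rfl hb' hB0 hDl (Real.exp_pos CI).le (by rw [← Real.exp_add]; exact hI)
  refine hmain.trans ?_
  have hlog : Real.exp (Real.log (1152 * K)) = 1152 * K := Real.exp_log (by positivity)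
  calc 1152 * (Real.exp CI * K * Real.exp (Wn / 10000) * Real.exp (Wn / 10000)) *
        Real.exp (4 * (Wn / 10000)) * Real.exp (-(D / 400))
      = Real.exp (Real.log (1152 * K)) * Real.exp CI * Real.exp (Wn / 10000) *
          Real.exp (Wn / 10000) * Real.exp (4 * (Wn / 10000)) * Real.exp (-(D / 400)) := by
        rw [hlog]; ring
    _ = Real.exp (Real.log (1152 * K) + CI + Wn / 10000 + Wn / 10000 + 4 * (Wn / 10000) +
          -(D / 400)) := by
        rw [Real.exp_add, Real.exp_add, Real.exp_add, Real.exp_add, Real.exp_add]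
    _ ≤ Real.exp (-δ) := by
        apply Real.exp_le_exp.2
        unfold cH at hWc
        rw [← hK, ← hWn] at hWc
        have a2 : 0.35 * (Wn * 13) ≤ D := by
          refine le_trans ?_ hDl
          nlinarith
        linarith

/-- the constant of the late eras, with the size of the windows -/
noncomputable def cW (k : ℕ) (CI : ℝ) : ℝ :=
  2 * cH k CI + 10000 * Real.log (2000074 * (spq (k + 1) : ℝ))

/-- **(hL) for the windows `Bw`**, case `7/20 W ≤ D`, regularity in the form `RegE`. -/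
theorem hL_near (h : PD m k j a l' l) (hM : Mt' P m k j a l' l) (hP : P.Ok Mk) (hX : Tg P I X Ir)
    {CI : ℝ} (hCI : 0 ≤ CI) (hL : LateC m k j (cW k CI))
    (h7 : 7 * W m j (a + P.h) ≤ 20 * (l - l')) {w : Key → ℕ} {s : ℕ} (hs : s + 1 = a + P.h)
    (hd : ∀ t < k,
      2 * (FF m l' t * LL (QQ m (era l')) t) ≤ FF m l' (t + 1) * LL (QQ m (era l')) (t + 1))
    (he : era (l' + 1) = era l') (hR : RegE m k j l s w) (hR' : RegE m k j l' s w)
    (hI : (I : ℝ) ≤ Real.exp (CI + ((l - l' : ℕ) : ℝ) * Real.log (pj j) / 2)) {δ : ℝ}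
    (hδ : 100 * δ ≤ W m j (a + P.h)) :
    PP P I X (Bw m k l s w) (Bw m k l' s w) * P.A P.h * P.pc P.h ≤ Real.exp (-δ) := by
  obtain ⟨Q, hQ, hB⟩ := hR
  obtain ⟨Q', hQ', hB'⟩ := hR'
  have hhk := hh_le (m := m) (k := k) (j := j) (a := a) (D := l - l') h.ak
  have hPh := hM.h
  have hkm := h.km
  have hsk : s ≤ k := by omega
  have hspq : (1 : ℝ) ≤ spq (k + 1) := by exact_mod_cast spq_pos _
  have hlog0 : 0 ≤ Real.log (2000074 * (spq (k + 1) : ℝ)) := Real.log_nonneg (by nlinarith)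
  have hsp1 : (1 : ℝ) ≤ spb k := by exact_mod_cast one_le_spb k
  have hK1 : (1 : ℝ) ≤ (200 * (spb k : ℝ) ^ 2) ^ 3 := by
    apply one_le_pow₀
    nlinarith
  have hlsp : 0 ≤ Real.log (spb k) := Real.log_nonneg hsp1
  have g3 : 0 ≤ Real.log (1152 * (200 * (spb k : ℝ) ^ 2) ^ 3) := Real.log_nonneg (by nlinarith)
  have hcH : 0 ≤ cH k CI := by
    unfold cH
    positivity
  have hL' : LateC m k j (2 * cH k CI) := ⟨hL.1, fun i hi => le_trans (by unfold cW; linarith)
    (hL.2 i hi)⟩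
  have hWc := hL.2 (a + P.h) (by omega)
  rw [hs] at hB hB'
  refine hL_gen h hM hP hX hCI hL' h7 hB hB' hQ'
    (B0 := 2000074 * spq (s + 1) * (10 ^ 6) ^ W m (era l') (s + 1))
    (fun b hb => Bw_lt hd hkm ((by norm_num : 8 ≤ 2 ^ 10).trans
      (by rw [h.el']; exact rt_ge h.big (by omega))) he hsk hb) ?_ hI hδ
  have e1 : ((2000074 * spq (s + 1) * (10 ^ 6) ^ W m (era l') (s + 1) : ℕ) : ℝ) ≤
      (2000074 * (spq (k + 1) : ℝ)) * (10 ^ 6) ^ W m j (a + P.h) := by
    rw [h.el', hs]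
    have e2 : spq (a + P.h) ≤ spq (k + 1) := spq_mono (by omega) (by omega)
    have e3 : ((spq (a + P.h) : ℕ) : ℝ) ≤ spq (k + 1) := by exact_mod_cast e2
    have hpw : (0 : ℝ) ≤ (10 ^ 6) ^ W m j (a + P.h) := by positivity
    calc ((2000074 * spq (a + P.h) * (10 ^ 6) ^ W m j (a + P.h) : ℕ) : ℝ)
        = (2000074 * (spq (a + P.h) : ℝ)) * (10 ^ 6) ^ W m j (a + P.h) := by push_cast; ring
      _ ≤ (2000074 * (spq (k + 1) : ℝ)) * (10 ^ 6) ^ W m j (a + P.h) :=
          mul_le_mul_of_nonneg_right (by linarith) hpw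
  refine e1.trans ?_
  have hp : (0 : ℝ) < (2000074 * (spq (k + 1) : ℝ)) * (10 ^ 6) ^ W m j (a + P.h) := by positivity
  rw [← Real.exp_log hp, Real.log_mul (by positivity) (by positivity), Real.log_pow]
  apply Real.exp_le_exp.2
  have q4 : Real.log (10 ^ 6) = lam := rfl
  rw [q4]
  unfold cW at hWc
  linarith

end Pool.Agent.Helper87.SL
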