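import Pool.Agent.Helper87.SL.Num2
import Pool.Agent.Helper63.T5.SLNum

/-!
# T5a, block SL: `hL` for the schedule, case `7/20 W ≤ D`

`a` is the base level, `h` the number of static levels used, `a + h ≤ k`; the windows `B`, `B'`
(levels from the schedule level `a + h + 1` on) are regular in the sense of `RegSet`.
-/

set_option autoImplicit false

namespace Pool.Agent.Helper87.SL

open Finset Pool.Agent.Helper5.ET Pool.Agent.Helper27.T5 Pool.Agent.Helper30.T5
  Pool.Agent.Helper22.SL Pool.Agent.Helper63.T5 Pool.Agent.Helper45.T5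

variable {κ : Type*} {P : Pr κ} {m k j a l' l : ℕ} {Mk : κ → ℕ} {I : ℕ} {X Ir : ℕ → ℕ}

/-- the constant of the late eras -/
noncomputable def cH (k : ℕ) (CI : ℝ) : ℝ :=
  1000 * (Real.log (1152 * (200 * (spb k : ℝ) ^ 2) ^ 3) + CI + 12 * Real.log (spb k)) +
    2000 * Real.log (spb k)

theorem W_step20 (h20 : 20 * m ≤ la j) (hm : 0 < m) {i : ℕ} (hi : i < m) :
    2 ^ 20 * W m j (i + 1) ≤ W m j i := by
  rw [Pool.Agent.Helper27.T5.W_succ (j := j) hi]
  apply Nat.mul_le_mul_right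
  unfold rt
  apply Nat.pow_le_pow_right (by norm_num)
  exact (Nat.le_div_iff_mul_le hm).2 h20

theorem log_Nj_pow (n : ℕ) (x : ℕ) (j : ℕ) :
    ((x * pj j ^ n : ℕ) : ℝ) = (x : ℝ) * Real.exp ((n : ℝ) * Real.log (pj j)) := by
  have h0 : (0 : ℝ) < pj j := by exact_mod_cast pj_pos j
  push_cast
  rw [← Real.log_pow, Real.exp_log (pow_pos h0 n)]

/-- the sizes of the last level -/
theorem numL (h : PD m k j a l' l) (hM : Mt' P m k j a l' l) {CI : ℝ} (hCI : 0 ≤ CI)
    (hL : LateC m k j (cH k CI)) :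
    NumL P (((l - l' : ℕ) : ℝ) * Real.log (pj j)) ((W m j (a + P.h) : ℝ) * lam)
      ((W m j (a + P.h - 1) : ℝ) * lam)
      (((ef m (a + P.h) l - l : ℕ) : ℝ) * Real.log (pj j))
      (((ef m (a + P.h) l' - l' : ℕ) : ℝ) * Real.log (pj j))
      ((200 * (spb k : ℝ) ^ 2) ^ 3) := by
  have hhk := hh_le (m := m) (k := k) (j := j) (a := a) (D := l - l') h.ak
  have hhp := hh_pos m k j a (l - l')
  have hPh := hM.h
  have ha := h.a1
  have hlam := lam_gt
  have hp1 := lam_le_pj j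
  have hp2 := log_pj_le j
  have hsp1 : (1 : ℝ) ≤ spb k := by exact_mod_cast one_le_spb k
  have hlsp : 0 ≤ Real.log (spb k) := Real.log_nonneg hsp1
  have hK1 : (1 : ℝ) ≤ (200 * (spb k : ℝ) ^ 2) ^ 3 := by
    apply one_le_pow₀
    nlinarith
  obtain ⟨t, ht⟩ : ∃ t, P.h = t + 1 := ⟨P.h - 1, by omega⟩
  have eW : a + P.h - 1 = a + t := by omega
  have htlt : t < hh m k j a (l - l') := by omega
  obtain ⟨e1, e2, e3⟩ := h.lead (i := a + P.h) (by omega)
  obtain ⟨e1', e2', e3'⟩ := h.lead' (i := a + P.h) (by omega)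
  have c2 : (1024 : ℝ) * ((ef m (a + P.h) l - l : ℕ) : ℝ) ≤ 13 * W m j (a + P.h) := by
    exact_mod_cast e2
  have c3 : (11 : ℝ) * W m j (a + P.h) ≤ 1024 * ((ef m (a + P.h) l - l : ℕ) : ℝ) := by
    exact_mod_cast e3.le
  have c2' : (1024 : ℝ) * ((ef m (a + P.h) l' - l' : ℕ) : ℝ) ≤ 13 * W m j (a + P.h) := by
    exact_mod_cast e2'
  have c3' : (11 : ℝ) * W m j (a + P.h) ≤ 1024 * ((ef m (a + P.h) l' - l' : ℕ) : ℝ) := by
    exact_mod_cast e3'.le
  have hW0 : (0 : ℝ) ≤ W m j (a + P.h) := Nat.cast_nonneg _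
  have low : ∀ x : ℝ, 0 ≤ x → 11 * (W m j (a + P.h) : ℝ) ≤ 1024 * x →
      0.0107 * ((W m j (a + P.h) : ℝ) * lam) ≤ x * Real.log (pj j) := by
    intro x hx0 hx
    calc 0.0107 * ((W m j (a + P.h) : ℝ) * lam) = (0.0107 * W m j (a + P.h)) * lam := by ring
      _ ≤ x * lam := by
          apply mul_le_mul_of_nonneg_right _ (by linarith)
          linarith
      _ ≤ x * Real.log (pj j) := mul_le_mul_of_nonneg_left hp1 hx0
  have up : ∀ x : ℝ, 0 ≤ x → 1024 * x ≤ 13 * (W m j (a + P.h) : ℝ) →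
      x * Real.log (pj j) ≤ 0.0128 * ((W m j (a + P.h) : ℝ) * lam) := by
    intro x hx0 hx
    calc x * Real.log (pj j) ≤ x * ((1 + 1 / 100000) * lam) := mul_le_mul_of_nonneg_left hp2 hx0
      _ = (x * (1 + 1 / 100000)) * lam := by ring
      _ ≤ (0.0128 * W m j (a + P.h)) * lam := by
          apply mul_le_mul_of_nonneg_right _ (by linarith)
          linarith
      _ = _ := by ring
  refine ⟨by positivity, ?_, ?_, ?_, ?_, low _ (Nat.cast_nonneg _) c3,
    up _ (Nat.cast_nonneg _) c2, low _ (Nat.cast_nonneg _) c3',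
    up _ (Nat.cast_nonneg _) c2', ?_, ?_, by positivity, ?_, hK1, ?_⟩
  · rw [hM.M, hM.M', h.Nl, log_Nj_pow]
  · rw [hM.M']
    exact Pool.Agent.Helper50.ET.Nj_pos _
  · rw [hM.F P.h (by omega) le_rfl, hM.M, h.NF (by omega) (by omega), log_Nj_pow]
  · rw [hM.F' P.h (by omega) le_rfl, hM.M', h.NF' (by omega) (by omega), log_Nj_pow]
  · intro t' ht'
    have et : t' = t := by omega
    subst et
    rw [hM.toMt.q (by omega), eW]
    have h0 : (0 : ℝ) < Qf m j (a + t' + 1) 2 := by exact_mod_cast Qf_pos _ _ _ _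
    rw [← Real.exp_log h0]
    apply Real.exp_le_exp.2
    have g1 := h.log_q_ge (i := a + t') (h.r_lt htlt).2 2
    rw [gw2] at g1
    have g2 := hL.2 (a + t') (by have := (h.r_lt htlt).2; omega)
    have g3 : 0 ≤ Real.log (1152 * (200 * (spb k : ℝ) ^ 2) ^ 3) :=
      Real.log_nonneg (by nlinarith)
    unfold cH at g2
    have g4 : 2000 * Real.log (spb k) ≤ W m j (a + t') := by nlinarith
    have g5 : (0 : ℝ) ≤ W m j (a + t') := Nat.cast_nonneg _
    have g6 : Real.log (spb k) ≤ 0.0005 * (W m j (a + t')) * lam := by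
      have : Real.log (spb k) ≤ 0.0005 * (W m j (a + t')) := by linarith
      nlinarith
    push_cast at g1
    nlinarith
  · rw [eW]
    have g1 := h.W_step (i := a + t) (h.r_lt htlt).2
    have g2 : a + t + 1 = a + P.h := by omega
    rw [g2] at g1
    have g3 : (2 ^ 10 : ℝ) * W m j (a + P.h) ≤ W m j (a + t) := by exact_mod_cast g1
    nlinarith
  · have g1 := h.D_le htlt
    rw [eW]
    calc _ ≤ (351 / 1000) * W m j (a + t) * lam := g1
      _ = 0.351 * ((W m j (a + t) : ℝ) * lam) := by ring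
  · exact (hM.toMt.A_le h le_rfl).2

/-- **(hL) for the schedule**, case `7/20 W ≤ D`. -/
theorem hL_inst (h : PD m k j a l' l) (hM : Mt' P m k j a l' l) (hP : P.Ok Mk) (hX : Tg P I X Ir)
    {CI : ℝ} (hCI : 0 ≤ CI) (hL : LateC m k j (cH k CI)) (h20 : 20 * m ≤ la j)
    (hk : a + P.h ≤ k) (h7 : 7 * W m j (a + P.h) ≤ 20 * (l - l')) {B B' : Finset ℕ} {B0 : ℕ}
    (hB : RegSet B (Qs m j (a + P.h + 1)) ((10 ^ 6) ^ (2 * W m j (a + P.h + 1)))
      (Real.sqrt (Qs m j (a + P.h + 1))))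
    (hB' : RegSet B' (Qs m j (a + P.h + 1)) ((10 ^ 6) ^ (2 * W m j (a + P.h + 1)))
      (Real.sqrt (Qs m j (a + P.h + 1))))
    (hb' : ∀ b ∈ B', b < B0) (hB0 : B0 ≤ (10 ^ 6) ^ (W m j (a + P.h) + W m j (a + P.h + 1)))
    (hI : (I : ℝ) ≤ Real.exp (CI + ((l - l' : ℕ) : ℝ) * Real.log (pj j) / 2)) {δ : ℝ}
    (hδ : 100 * δ ≤ W m j (a + P.h)) :
    PP P I X B B' * P.A P.h * P.pc P.h ≤ Real.exp (-δ) := by
  have hhp := hh_pos m k j a (l - l')
  have hPh := hM.h
  have ha := h.a1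
  have hkm := h.km
  have hlam := lam_gt
  have hlam2 := lam_lt
  have hp1 := lam_le_pj j
  have hsp1 : (1 : ℝ) ≤ spb k := by exact_mod_cast one_le_spb k
  have hlsp : 0 ≤ Real.log (spb k) := Real.log_nonneg hsp1
  set K : ℝ := (200 * (spb k : ℝ) ^ 2) ^ 3 with hK
  have hK1 : (1 : ℝ) ≤ K := by
    rw [hK]
    apply one_le_pow₀
    nlinarith
  set Wn : ℝ := (W m j (a + P.h) : ℝ) with hWn
  set W1 : ℝ := (W m j (a + P.h + 1) : ℝ) with hW1
  have hWn0 : 0 ≤ Wn := Nat.cast_nonneg _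
  have hW10 : 0 ≤ W1 := Nat.cast_nonneg _
  have hstep : 2 ^ 20 * W1 ≤ Wn := by
    have := W_step20 (j := j) h20 (show 0 < m by omega) (show a + P.h < m by omega)
    rw [hW1, hWn]
    exact_mod_cast this
  have hWc := hL.2 (a + P.h) (by omega)
  have g3 : 0 ≤ Real.log (1152 * K) := Real.log_nonneg (by nlinarith)
  set D : ℝ := ((l - l' : ℕ) : ℝ) * Real.log (pj j) with hD
  have hDl : 0.35 * (Wn * lam) ≤ D := by
    have e : (7 : ℝ) * Wn ≤ 20 * ((l - l' : ℕ) : ℝ) := by rw [hWn]; exact_mod_cast h7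
    rw [hD]
    have e0 : (0 : ℝ) ≤ ((l - l' : ℕ) : ℝ) := Nat.cast_nonneg _
    calc 0.35 * (Wn * lam) = (0.35 * Wn) * lam := by ring
      _ ≤ ((l - l' : ℕ) : ℝ) * lam := by
          apply mul_le_mul_of_nonneg_right _ (by linarith)
          linarith
      _ ≤ _ := mul_le_mul_of_nonneg_left hp1 e0
  set η : ℝ := W1 * lam + 3 * Real.log (spb k) with hη
  have hη0 : 0 ≤ η := by positivity
  have hNum := numL h hM hCI hL
  rw [← hK, ← hWn, ← hD] at hNum
  -- the modulus
  have hsq : Real.exp (Wn * lam / 2 - η) ≤ Real.sqrt (Qs m j (a + P.h + 1)) := by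
    apply Real.le_sqrt_of_sq_le
    rw [← Real.exp_nat_mul]
    have h0 : (0 : ℝ) < Qs m j (a + P.h + 1) := by exact_mod_cast Qs_pos _ _ _
    rw [← Real.exp_log h0]
    apply Real.exp_le_exp.2
    have q1 := le_log_Qs (m := m) (j := j) (i := a + P.h + 1) (by omega)
      ((by norm_num : 8 ≤ 2 ^ 10).trans (rt_ge h.big (by omega)))
    have q2 : ((W m j (a + P.h + 1 - 1) - W m j (a + P.h + 1) : ℕ) : ℝ) = Wn - W1 := by
      rw [Nat.add_sub_cancel, Nat.cast_sub (W_anti m j (by omega))]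
    rw [q2] at q1
    have q3 : Real.log (spp (a + P.h + 1)) ≤ 3 * Real.log (spb k) := by
      have e1 : ((spp (a + P.h + 1) : ℕ) : ℝ) ≤ (spb k : ℝ) ^ 3 := by
        have e2 : spp (a + P.h + 1) ≤ spb k ^ 3 := by
          unfold spp
          refine (Finset.prod_le_prod' (fun f _ => sp_le_spb (k := k)
            (i := a + P.h + 1) (by omega) f)).trans ?_
          rw [Finset.prod_const, Finset.card_univ, Fintype.card_fin]
        exact_mod_cast e2
      have e3 : (0 : ℝ) < spp (a + P.h + 1) := by exact_mod_cast spp_pos _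
      calc Real.log (spp (a + P.h + 1)) ≤ Real.log ((spb k : ℝ) ^ 3) := Real.log_le_log e3 e1
        _ = 3 * Real.log (spb k) := by rw [Real.log_pow]; norm_num
    have q4 : Real.log (10 ^ 6) = lam := rfl
    rw [q4] at q1
    push_cast
    rw [hη]
    nlinarith
  have hR : ((10 ^ 6 : ℝ) ^ (2 * W m j (a + P.h + 1))) = Real.exp (2 * W1 * lam) := by
    have : (0 : ℝ) < (10 ^ 6) ^ (2 * W m j (a + P.h + 1)) := by positivity
    rw [← Real.exp_log this, Real.log_pow]
    congr 1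
    push_cast
    rw [← hW1]
    rfl
  have hBr : ((B0 : ℕ) : ℝ) ≤ Real.exp (Wn * lam + η) := by
    have e1 : (B0 : ℝ) ≤ (10 ^ 6) ^ (W m j (a + P.h) + W m j (a + P.h + 1)) := by
      exact_mod_cast hB0
    refine e1.trans ?_
    have : (0 : ℝ) < (10 ^ 6) ^ (W m j (a + P.h) + W m j (a + P.h + 1)) := by positivity
    rw [← Real.exp_log this, Real.log_pow]
    apply Real.exp_le_exp.2
    have q4 : Real.log (10 ^ 6) = lam := rfl
    rw [q4]
    push_cast
    rw [← hW1, ← hWn, hη]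
    nlinarith
  have hcop : (P.F' P.h / P.M').Coprime (Qs m j (a + P.h + 1)) := by
    rw [hM.F' P.h (by omega) le_rfl, hM.M', h.NF' (by omega) (by omega),
      Nat.mul_div_cancel_left _ (Pool.Agent.Helper50.ET.Nj_pos _)]
    exact Nat.Coprime.pow_left _ (coprime_pr_Qs _ _ _ _)
  have hmain := hNum.hL hP hX (by omega) (B := B) (B' := B') (B0 := B0) (by positivity)
    (by positivity) hη0 hB hB' hcop hsq hsq hb' hBr hDl (Real.exp_pos CI).le
    (by rw [← Real.exp_add]; exact hI)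
  refine hmain.trans ?_
  have hlog : Real.exp (Real.log (1152 * K)) = 1152 * K := Real.exp_log (by positivity)
  calc 1152 * (Real.exp CI * K * (10 ^ 6) ^ (2 * W m j (a + P.h + 1)) *
        (10 ^ 6) ^ (2 * W m j (a + P.h + 1))) * Real.exp (4 * η) * Real.exp (-(D / 400))
      = Real.exp (Real.log (1152 * K)) * Real.exp CI * Real.exp (2 * W1 * lam) *
          Real.exp (2 * W1 * lam) * Real.exp (4 * η) * Real.exp (-(D / 400)) := by
        rw [hlog, hR]; ring
    _ = Real.exp (Real.log (1152 * K) + CI + 2 * W1 * lam + 2 * W1 * lam + 4 * η +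
          -(D / 400)) := by
        rw [Real.exp_add, Real.exp_add, Real.exp_add, Real.exp_add, Real.exp_add]
    _ ≤ Real.exp (-δ) := by
        apply Real.exp_le_exp.2
        unfold cH at hWc
        rw [← hK, ← hWn] at hWc
        have a1 : W1 * lam ≤ 14 * W1 := by nlinarith
        have a2 : 0.35 * (Wn * 13) ≤ D := by
          refine le_trans ?_ hDl
          nlinarith
        rw [hη]
        have a3 : W1 ≤ Wn / 2 ^ 20 := by
          rw [le_div_iff₀ (by positivity)]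
          linarith
        norm_num at a3
        linarith

end Pool.Agent.Helper87.SL
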