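import Pool.Agent.Helper87.SL.NumDefs
import Pool.Agent.Helper87.L3.Count
import Pool.Agent.Helper87.L3.Expo3

/-!
# T5, block SL: the numerical hypotheses of `static_block`
-/

namespace Pool.Agent.Helper87.SL

open Finset Real Pool.Agent.Helper22.SL Pool.Agent.Helper87.L3
  Pool.Agent.Helper27.T4

variable {κ : Type*} {P : Pr κ} {D : ℝ} {w s s' : ℕ → ℝ} {K : ℝ}

namespace Num

theorem M'pos (h : Num P D w s s' K) : (0 : ℝ) < P.M' := by exact_mod_cast h.M'0

theorem Mpos (h : Num P D w s s' K) : (0 : ℝ) < P.M := by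
  rw [h.M]
  exact mul_pos h.M'pos (exp_pos _)

theorem w_nonneg (h : Num P D w s s' K) {r : ℕ} (hr : r ≤ P.h) : 0 ≤ w r := by
  rcases Nat.lt_or_ge r P.h with h1 | h1
  · have := h.w1 r h1
    linarith
  · have : r = P.h := le_antisymm hr h1
    rw [this]
    exact h.w0

theorem w_le (h : Num P D w s s' K) {r : ℕ} (hr : r ≤ P.h) : w r ≤ w 0 := by
  induction r with
  | zero => exact le_refl _
  | succ r ih =>
    have h1 := h.deep r hr
    have h2 := h.w_nonneg hr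
    have h3 := ih (by omega)
    linarith

/-- the family `0` sees the whole window of targets -/
theorem zF (h : Num P D w s s' K) {r : ℕ} (hr : r < P.h) : 6 * P.F r < P.M' * P.q r 0 := by
  have h1 := h.Dl r hr
  have h2 := h.su r hr.le
  have h3 := h.w1 r hr
  have e : (6 * P.F r : ℝ) < P.M' * P.q r 0 := by
    rw [h.F r hr.le, h.M]
    have h6 : (6 : ℝ) < exp 6 := by
      have := add_one_le_exp (6 : ℝ)
      linarith
    calc 6 * (P.M' * exp D * exp (s r)) = P.M' * (6 * exp (D + s r)) := by rw [exp_add]; ring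
      _ < P.M' * (exp 6 * exp (D + s r)) := by
          apply mul_lt_mul_of_pos_left _ h.M'pos
          exact mul_lt_mul_of_pos_right h6 (exp_pos _)
      _ = P.M' * exp (6 + (D + s r)) := by rw [exp_add 6]
      _ ≤ P.M' * exp (0.374 * w r) := by
          apply mul_le_mul_of_nonneg_left _ h.M'pos.le
          exact exp_le_exp.mpr (by linarith)
      _ ≤ P.M' * P.q r 0 := mul_le_mul_of_nonneg_left (h.q0 r hr) h.M'pos.le
  exact_mod_cast e

/-- the family `2` covers the jump -/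
theorem mid (h : Num P D w s s' K) {r : ℕ} (hr : r + 1 < P.h) :
    P.F (r + 1) ≤ P.F' (r + 1) * P.q r 2 := by
  have h1 := h.Dl (r + 1) hr
  have h2 := h.su (r + 1) hr.le
  have h3 := h.sl' (r + 1) hr.le
  have h4 := h.deep r (by omega)
  have h5 := h.w1 (r + 1) hr
  have e : (P.F (r + 1) : ℝ) ≤ P.F' (r + 1) * P.q r 2 := by
    rw [h.F (r + 1) hr.le, h.F' (r + 1) hr.le, h.M]
    calc P.M' * exp D * exp (s (r + 1)) = P.M' * exp (D + s (r + 1)) := by rw [exp_add]; ring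
      _ ≤ P.M' * exp (s' (r + 1) + 0.249 * w r) := by
          apply mul_le_mul_of_nonneg_left _ h.M'pos.le
          exact exp_le_exp.mpr (by linarith)
      _ = P.M' * exp (s' (r + 1)) * exp (0.249 * w r) := by rw [exp_add]; ring
      _ ≤ P.M' * exp (s' (r + 1)) * P.q r 2 := by
          apply mul_le_mul_of_nonneg_left (h.q2 r (by omega))
          exact mul_nonneg h.M'pos.le (exp_pos _).le
  exact_mod_cast e

theorem Q_eq (P : Pr κ) (r : ℕ) : P.Q r = P.q r 0 * P.q r 1 * P.q r 2 := by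
  rw [Pr.Q, NN, Fin.prod_univ_three]
  rfl

theorem L_succ (P : Pr κ) (r : ℕ) : P.L (r + 1) = P.L r * P.Q r := by
  rw [Pr.L, Pr.L, prod_range_succ, mul_assoc]

/-- the ranges double -/
theorem size (h : Num P D w s s' K) {r : ℕ} (hr : r < P.h) :
    2 * (P.F r * P.L r) ≤ P.F (r + 1) * P.L (r + 1) := by
  have h2 := h.su r hr.le
  have h3 := h.sl (r + 1) hr
  have h4 := h.w1 r hr
  have h5 := h.w_nonneg (r := r + 1) hr
  have e : (2 * P.F r : ℝ) ≤ P.F (r + 1) * P.Q r := by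
    rw [h.F r hr.le, h.F (r + 1) hr, Q_eq]
    push_cast
    have a0 := h.q0 r hr
    have a1 : (1 : ℝ) ≤ P.q r 1 := (one_le_exp (by linarith)).trans (h.q1 r hr)
    have a2 : (1 : ℝ) ≤ P.q r 2 := (one_le_exp (by linarith)).trans (h.q2 r hr)
    have h6 : (2 : ℝ) ≤ exp 1 := by
      have := add_one_le_exp (1 : ℝ)
      linarith
    have a3 : (1 : ℝ) ≤ exp (s (r + 1)) := one_le_exp (by linarith)
    calc 2 * (P.M * exp (s r)) ≤ exp 1 * (P.M * exp (s r)) := by
          apply mul_le_mul_of_nonneg_right h6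
          exact mul_nonneg h.Mpos.le (exp_pos _).le
      _ = P.M * exp (1 + s r) := by rw [exp_add]; ring
      _ ≤ P.M * exp (0.374 * w r) := by
          apply mul_le_mul_of_nonneg_left _ h.Mpos.le
          exact exp_le_exp.mpr (by linarith)
      _ ≤ P.M * P.q r 0 := mul_le_mul_of_nonneg_left a0 h.Mpos.le
      _ = P.M * 1 * (P.q r 0 * 1 * 1) := by ring
      _ ≤ P.M * exp (s (r + 1)) * (P.q r 0 * P.q r 1 * P.q r 2) := by
          have := h.Mpos.le
          gcongr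
  have e' : 2 * P.F r ≤ P.F (r + 1) * P.Q r := by exact_mod_cast e
  rw [L_succ]
  calc 2 * (P.F r * P.L r) = (2 * P.F r) * P.L r := by ring
    _ ≤ (P.F (r + 1) * P.Q r) * P.L r := Nat.mul_le_mul_right _ e'
    _ = P.F (r + 1) * (P.L r * P.Q r) := by ring

theorem A_nonneg (P : Pr κ) (r : ℕ) : 0 ≤ P.A r := by
  unfold Pr.A
  exact prod_nonneg (fun _ _ => by positivity)

/-- **(hA)** -/
theorem hA (h : Num P D w s s' K) {I : ℕ} {I0 ρ : ℝ} (hI0 : 0 ≤ I0)
    (hI : (I : ℝ) ≤ I0 * exp (D / 2)) (hρ : 80 * I0 * K * exp (-(D / 100)) ≤ ρ) {r : ℕ}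
    (hr : r < P.h) :
    80 * I * P.A r * P.p r 0 * P.p r 2 * Real.sqrt (P.q r 1) ≤ ρ * P.q r 1 := by
  have h1 := h.Dl r hr
  have h4 := h.w1 r hr
  have hq := h.q1 r hr
  have hAp := h.Ap r hr
  have hA0 := A_nonneg P r
  have hK := h.K1
  have hq0 : (0 : ℝ) ≤ P.q r 1 := Nat.cast_nonneg _
  have hs : exp (0.187 * w r) ≤ Real.sqrt (P.q r 1) := by
    apply Real.le_sqrt_of_sq_le
    rw [← exp_nat_mul]
    refine le_trans (exp_le_exp.mpr ?_) hq
    push_cast
    linarith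
  have hρ0 : 0 ≤ ρ := le_trans (by positivity) hρ
  have key : 80 * I * P.A r * P.p r 0 * P.p r 2 ≤ ρ * Real.sqrt (P.q r 1) := by
    calc 80 * I * P.A r * P.p r 0 * P.p r 2 = 80 * I * (P.A r * (P.p r 0 * P.p r 2)) := by ring
      _ ≤ 80 * (I0 * exp (D / 2)) * K := by
          have : 0 ≤ P.A r * ((P.p r 0 : ℝ) * P.p r 2) := by positivity
          gcongr
      _ = 80 * I0 * K * exp (D / 2) := by ring
      _ ≤ 80 * I0 * K * (exp (-(D / 100)) * exp (0.187 * w r)) := by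
          apply mul_le_mul_of_nonneg_left _ (by positivity)
          rw [← exp_add]
          exact exp_le_exp.mpr (by linarith)
      _ = 80 * I0 * K * exp (-(D / 100)) * exp (0.187 * w r) := by ring
      _ ≤ ρ * Real.sqrt (P.q r 1) := by gcongr
  calc 80 * I * P.A r * P.p r 0 * P.p r 2 * Real.sqrt (P.q r 1)
      ≤ ρ * Real.sqrt (P.q r 1) * Real.sqrt (P.q r 1) :=
        mul_le_mul_of_nonneg_right key (Real.sqrt_nonneg _)
    _ = ρ * P.q r 1 := by rw [mul_assoc, Real.mul_self_sqrt hq0]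

theorem F_pos (h : Num P D w s s' K) {r : ℕ} (hr : r ≤ P.h) : (0 : ℝ) < P.F r := by
  rw [h.F r hr]
  exact mul_pos h.Mpos (exp_pos _)

/-- the ratio of the fronts, first bound -/
theorem ratio1 (h : Num P D w s s' K) {r : ℕ} (h1 : 1 ≤ r) (hr : r ≤ P.h) :
    (P.F' r : ℝ) / P.F r ≤ exp (-(w r / 512)) := by
  rw [div_le_iff₀ (h.F_pos hr)]
  have e := h.jump r h1 hr
  calc (P.F' r : ℝ) = P.F' r * exp (w r / 512) * exp (-(w r / 512)) := by
        rw [mul_assoc, ← exp_add, add_neg_cancel, exp_zero, mul_one]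
    _ ≤ P.F r * exp (-(w r / 512)) := mul_le_mul_of_nonneg_right e (exp_pos _).le
    _ = exp (-(w r / 512)) * P.F r := mul_comm _ _

/-- the ratio of the fronts, exactly -/
theorem ratio (h : Num P D w s s' K) {r : ℕ} (hr : r ≤ P.h) :
    (P.F' r : ℝ) / P.F r = exp (s' r) / (exp D * exp (s r)) := by
  rw [h.F r hr, h.F' r hr, h.M]
  have := h.M'pos
  field_simp

/-- the ratio of the fronts, second bound -/
theorem ratio2 (h : Num P D w s s' K) {r : ℕ} (hr : r ≤ P.h) :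
    (P.F' r : ℝ) / P.F r ≤ exp (0.0021 * w r - D) := by
  have h1 := h.su' r hr
  have h2 := h.sl r hr
  rw [h.ratio hr, ← exp_add, ← exp_sub]
  exact exp_le_exp.mpr (by linarith)

theorem inv_q2 (h : Num P D w s s' K) {r : ℕ} (hr : r < P.h) :
    1 / (P.q r 2 : ℝ) ≤ exp (-(0.249 * w r)) := by
  rw [exp_neg, ← one_div]
  exact one_div_le_one_div_of_le (exp_pos _) (h.q2 r hr)

/-- **(hB)** -/
theorem hB (h : Num P D w s s' K) {Ir : ℕ → ℕ} {I0 ρ : ℝ} (hI0 : 0 ≤ I0)
    (lab1 : ∀ r, 1 ≤ r → r < P.h → D < s' r → (Ir r : ℝ) ≤ I0)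
    (lab2 : ∀ r, 1 ≤ r → r < P.h → (Ir r : ℝ) ≤ I0 * exp (D / 2))
    (hρ : 2 * I0 * K * exp (-(D / 100)) ≤ ρ) {r : ℕ} (hr : r < P.h) (h1 : 1 ≤ r) :
    Ir r * P.A r * P.pc r ≤ ρ := by
  obtain ⟨t, rfl⟩ : ∃ t, r = t + 1 := ⟨r - 1, by omega⟩
  have hA := h.A (t + 1) hr.le
  have hA0 := A_nonneg P (t + 1)
  have hK := h.K1
  have hD0 := h.D0
  have hDl := h.Dl (t + 1) hr
  have hDl' := h.Dl t (by omega)
  have hw := h.w1 (t + 1) hr
  have hw' := h.w1 t (by omega)
  have hs1 := h.sl' (t + 1) hr.le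
  have hs2 := h.su' (t + 1) hr.le
  have hpc : P.pc (t + 1) = (P.F' (t + 1) : ℝ) / P.F (t + 1) + 1 / (P.q t 2 : ℝ) := rfl
  have hpc0 : 0 ≤ P.pc (t + 1) := by rw [hpc]; positivity
  have r1 := h.ratio1 h1 hr.le
  have r2 := h.ratio2 hr.le
  have r3 := h.inv_q2 (r := t) (by omega)
  have key : (Ir (t + 1) : ℝ) * P.pc (t + 1) ≤ 2 * I0 * exp (-(D / 100)) := by
    by_cases hc : D < s' (t + 1)
    · have a := lab1 (t + 1) h1 hr hc
      have b1 : (P.F' (t + 1) : ℝ) / P.F (t + 1) ≤ exp (-(D / 100)) :=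
        r1.trans (exp_le_exp.mpr (by linarith))
      have b2 : 1 / (P.q t 2 : ℝ) ≤ exp (-(D / 100)) := r3.trans (exp_le_exp.mpr (by linarith))
      calc (Ir (t + 1) : ℝ) * P.pc (t + 1) ≤ I0 * (2 * exp (-(D / 100))) := by
            rw [hpc] at hpc0 ⊢
            exact mul_le_mul a (by linarith) hpc0 hI0
        _ = _ := by ring
    · push Not at hc
      have a := lab2 (t + 1) h1 hr
      have b1 : exp (D / 2) * ((P.F' (t + 1) : ℝ) / P.F (t + 1)) ≤ exp (-(D / 100)) := by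
        calc exp (D / 2) * ((P.F' (t + 1) : ℝ) / P.F (t + 1))
            ≤ exp (D / 2) * exp (0.0021 * w (t + 1) - D) :=
              mul_le_mul_of_nonneg_left r2 (exp_pos _).le
          _ = exp (D / 2 + (0.0021 * w (t + 1) - D)) := (exp_add _ _).symm
          _ ≤ _ := exp_le_exp.mpr (by linarith)
      have b2 : exp (D / 2) * (1 / (P.q t 2 : ℝ)) ≤ exp (-(D / 100)) := by
        calc exp (D / 2) * (1 / (P.q t 2 : ℝ)) ≤ exp (D / 2) * exp (-(0.249 * w t)) :=
              mul_le_mul_of_nonneg_left r3 (exp_pos _).le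
          _ = exp (D / 2 + -(0.249 * w t)) := (exp_add _ _).symm
          _ ≤ _ := exp_le_exp.mpr (by linarith)
      calc (Ir (t + 1) : ℝ) * P.pc (t + 1) ≤ (I0 * exp (D / 2)) * P.pc (t + 1) :=
            mul_le_mul_of_nonneg_right a hpc0
        _ = I0 * (exp (D / 2) * ((P.F' (t + 1) : ℝ) / P.F (t + 1)) +
              exp (D / 2) * (1 / (P.q t 2 : ℝ))) := by rw [hpc]; ring
        _ ≤ I0 * (exp (-(D / 100)) + exp (-(D / 100))) := by gcongr
        _ = _ := by ring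
  calc Ir (t + 1) * P.A (t + 1) * P.pc (t + 1) = (Ir (t + 1) * P.pc (t + 1)) * P.A (t + 1) := by
        ring
    _ ≤ (2 * I0 * exp (-(D / 100))) * K := mul_le_mul key hA hA0 (by positivity)
    _ = 2 * I0 * K * exp (-(D / 100)) := by ring
    _ ≤ ρ := hρ

theorem W_nonneg (P : Pr κ) (r : ℕ) : 0 ≤ P.W r := prod_nonneg (fun _ _ => by positivity)

theorem W_le (h : Num P D w s s' K) {r : ℕ} (hr : r ≤ P.h) : P.W r ≤ exp (r * w 0) := by
  induction r with
  | zero => simp [Pr.W]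
  | succ r ih =>
    rw [Pr.W, prod_range_succ]
    have e1 := ih (by omega)
    rw [Pr.W] at e1
    have e2 : ((P.q r 2 : ℕ) : ℝ) ^ 2 ≤ exp (w 0) := by
      calc ((P.q r 2 : ℕ) : ℝ) ^ 2 ≤ exp (w r / 2) ^ 2 :=
            pow_le_pow_left₀ (Nat.cast_nonneg _) (h.qu r hr 2) 2
        _ = exp (w r) := by rw [← exp_nat_mul]; congr 1; push_cast; ring
        _ ≤ exp (w 0) := exp_le_exp.mpr (h.w_le (by omega))
    calc _ ≤ exp (r * w 0) * exp (w 0) := mul_le_mul e1 e2 (by positivity) (exp_pos _).le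
      _ = exp ((r + 1 : ℕ) * w 0) := by rw [← exp_add]; congr 1; push_cast; ring

/-- **(hΓ)** -/
theorem hG (h : Num P D w s s' K) {r : ℕ} (hr : r < P.h) :
    (P.q r 0 * P.q r 1 : ℕ) * (P.W r * P.q r 1) ≤ exp ((P.h + 1) * w 0) := by
  have e0 := h.qu r hr 0
  have e1 := h.qu r hr 1
  have e2 := h.W_le hr.le
  have hW := W_nonneg P r
  have h3 := h.w_le hr.le
  have h4 := h.w1 r hr
  have h5 : (r : ℝ) + 1 ≤ P.h := by exact_mod_cast hr
  push_cast
  calc (P.q r 0 : ℝ) * P.q r 1 * (P.W r * P.q r 1)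
      ≤ exp (w r / 2) * exp (w r / 2) * (exp (r * w 0) * exp (w r / 2)) := by gcongr
    _ = exp (w r / 2 + w r / 2 + (r * w 0 + w r / 2)) := by rw [exp_add, exp_add, exp_add]
    _ ≤ exp ((P.h + 1) * w 0) := by
        apply exp_le_exp.mpr
        nlinarith

/-- **(hΓ')** -/
theorem hG' (h : Num P D w s s' K) : P.W P.h ≤ exp ((P.h + 1) * w 0) := by
  refine (h.W_le (le_refl _)).trans (exp_le_exp.mpr ?_)
  have := h.w_nonneg (r := 0) (Nat.zero_le _)
  linarith

end Num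

/-- the ratio of the fronts, exactly -/
theorem NumL.ratio {D W W0 s s' K : ℝ} (h : NumL P D W W0 s s' K) :
    (P.F' P.h : ℝ) / P.F P.h = exp s' / (exp D * exp s) := by
  rw [h.F, h.F', h.M]
  have : (0 : ℝ) < P.M' := by exact_mod_cast h.M'0
  field_simp

/-- **(hL)** for `D ≥ 0.35 * W`, from one-sided regularity of the windows: arcs for `B`, arcs in
classes modulo `f = F' h / M'` for `B'`. -/
theorem NumL.hL0 {W W0 s s' K : ℝ} (h : NumL P D W W0 s s' K) (hh : 1 ≤ P.h) {I : ℕ}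
    {X : ℕ → ℕ} {B B' : Finset ℕ} {cl : ℕ → ℕ} {q f t0 A B0 : ℕ}
    (hPP : PP P I X B B' ≤ (trip (range I) B B' cl q f t0 A).card)
    (hq : P.M = P.M' * q) (hf : P.F' P.h = P.M' * f) (hA : A * P.M' ≤ 6 * P.F P.h)
    {v v' R R' η I0 : ℝ} (hR : 0 ≤ R) (hR' : 0 ≤ R') (hη : 0 ≤ η)
    (hB : ∀ a L : ℕ, ((arc B a L).card : ℝ) ≤ R * (1 + L / v))
    (hB' : ∀ a L c : ℕ, ((arcc B' a L c f).card : ℝ) ≤ R' * (1 + L / (f * v')))
    (hv : exp (W / 2 - η) ≤ v) (hv' : exp (W / 2 - η) ≤ v')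
    (hb' : ∀ b ∈ B', b < B0) (hB0 : (B0 : ℝ) ≤ exp (W + η))
    (hD : 0.35 * W ≤ D) (hI0 : 0 ≤ I0) (hI : (I : ℝ) ≤ I0 * exp (D / 2)) :
    PP P I X B B' * P.A P.h * P.pc P.h ≤
      1152 * (I0 * K * R * R') * exp (4 * η) * exp (-(D / 400)) := by
  obtain ⟨t, ht⟩ : ∃ t, P.h = t + 1 := ⟨P.h - 1, by omega⟩
  have hM' : (0 : ℝ) < P.M' := by exact_mod_cast h.M'0
  have hM : (0 : ℝ) < P.M := by rw [h.M]; exact mul_pos hM' (exp_pos _)
  have hw0 := h.w0
  have hA1 := h.A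
  have hA0 := Num.A_nonneg P P.h
  -- real forms
  have eq1 : (q : ℝ) = exp D := by
    have e := h.M
    rw [hq] at e
    push_cast at e
    exact mul_left_cancel₀ hM'.ne' e
  have ef : (f : ℝ) = exp s' := by
    have e := h.F'
    rw [hf] at e
    push_cast at e
    exact mul_left_cancel₀ hM'.ne' e
  have hqpos : 0 < q := by
    have : (0 : ℝ) < q := by rw [eq1]; exact exp_pos _
    exact_mod_cast this
  have hfpos : 0 < f := by
    have : (0 : ℝ) < f := by rw [ef]; exact exp_pos _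
    exact_mod_cast this
  have hp1 : 0 < v := (exp_pos _).trans_le hv
  have hp2 : 0 < v' := (exp_pos _).trans_le hv'
  have T := trip_card (range I) B B' cl q f t0 A B0 hqpos hfpos hb' R R' v v' hR hB hp1 hB' hp2 hR'
  rw [card_range] at T
  have hsl := h.sl
  have hsu := h.su
  have hsl' := h.sl'
  have hsu' := h.su'
  have hDl := h.Dl
  have hdeep := h.deep
  have hD0 := h.D0
  have hAr : (A : ℝ) ≤ 6 * (exp D * exp s) := by
    have e : ((A * P.M' : ℕ) : ℝ) ≤ ((6 * P.F P.h : ℕ) : ℝ) := by exact_mod_cast hA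
    push_cast at e
    rw [h.F, h.M] at e
    have e2 : (A : ℝ) * P.M' ≤ (6 * (exp D * exp s)) * P.M' := by
      calc (A : ℝ) * P.M' ≤ 6 * (P.M' * exp D * exp s) := e
        _ = _ := by ring
    exact le_of_mul_le_mul_right e2 hM'
  have hpc : P.pc P.h = exp s' / (exp D * exp s) + 1 / (P.q t 2 : ℝ) := by
    rw [← h.ratio]
    conv_lhs => rw [ht]
    rw [Pr.pc, ← ht]
  have hpc0 : 0 ≤ P.pc P.h := by rw [hpc]; positivity
  have E := expog (q := exp D) (f := exp s) (f' := (f : ℝ)) (w := v)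
    (w' := v') (B' := (B0 : ℝ)) (A := (A : ℝ)) (W := W) (D := D) (η := η)
    (cm := 0.0107) (cP := 0.0021) (θ := 0.35) (CA := 6) (CI := I0) (Cp := 1)
    (Q2 := (P.q t 2 : ℝ)) (I := (I : ℝ)) (price := P.pc P.h) (ρ := R) (ρ' := R') rfl hw0 hη hD
    (by norm_num) (by norm_num) (by norm_num) (by norm_num) (by norm_num)
    (exp_le_exp.mpr hsl) (exp_le_exp.mpr (by linarith))
    (by rw [ef]; exact one_le_exp (by linarith))
    (by rw [ef, ← exp_add]; exact exp_le_exp.mpr (by linarith)) hv hv' hB0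
    (Nat.cast_nonneg _) hAr (Nat.cast_nonneg _) (by norm_num)
    ((exp_le_exp.mpr (by linarith)).trans (h.q2 t ht)) hI (Nat.cast_nonneg _) hI0
    (by rw [hpc, ef, one_mul]) hpc0 (by norm_num) hR hR'
  rw [eq1] at T
  have hT : (PP P I X B B' : ℝ) ≤ I * (R * (1 + (((A : ℝ) + B0) / exp D + 2) / v)) *
      (R' * (1 + min (A : ℝ) (B0 : ℝ) / (f * v'))) := by
    refine le_trans (by exact_mod_cast hPP) (T.trans (le_of_eq ?_))
    push_cast
    ring
  have hfin : exp (-(0.0107 * D / 4)) ≤ exp (-(D / 400)) := exp_le_exp.mpr (by linarith)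
  calc PP P I X B B' * P.A P.h * P.pc P.h = (PP P I X B B' * P.pc P.h) * P.A P.h := by ring
    _ ≤ (32 * (I0 * 1 * 6 ^ 2 * R * R') * exp (4 * η) * exp (-(0.0107 * D / 4))) * K := by
        apply mul_le_mul _ hA1 hA0 (by positivity)
        exact (mul_le_mul_of_nonneg_right hT hpc0).trans E
    _ ≤ (32 * (I0 * 1 * 6 ^ 2 * R * R') * exp (4 * η) * exp (-(D / 400))) * K := by
        have := h.K1
        gcongr
    _ = 1152 * (I0 * K * R * R') * exp (4 * η) * exp (-(D / 400)) := by ring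

end Pool.Agent.Helper87.SL
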