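import Pool.Agent.Helper87.SL.Num
import Pool.Agent.Helper18.T5.N1
import Pool.Agent.Helper45.T5.RegWin
import Pool.Agent.Helper22.SL.Static

/-!
# T5, block SL: (hL) from `RegSet`, and the static block with all numbers
-/

namespace Pool.Agent.Helper87.SL

open Finset Real Pool.Agent.Helper22.SL Pool.Agent.Helper87.L3 Pool.Agent.Helper45.T5

variable {κ : Type*} {P : Pr κ} {D : ℝ} {w s s' : ℕ → ℝ} {K : ℝ} {Mk : κ → ℕ} {I : ℕ} {X Ir : ℕ → ℕ}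

/-- **(hL)** for `D ≥ 0.35 * W` and regular windows -/
theorem NumL.hL {W W0 s s' K : ℝ} (h : NumL P D W W0 s s' K) (hP : P.Ok Mk) (hX : Tg P I X Ir)
    (hh : 1 ≤ P.h)
    {B B' : Finset ℕ} {B0 Q Q' : ℕ} {v v' R R' η I0 : ℝ} (hR : 0 ≤ R) (hR' : 0 ≤ R') (hη : 0 ≤ η)
    (hB : RegSet B Q R v) (hB' : RegSet B' Q' R' v') (hcop : (P.F' P.h / P.M').Coprime Q')
    (hv : exp (W / 2 - η) ≤ v) (hv' : exp (W / 2 - η) ≤ v')
    (hb' : ∀ b ∈ B', b < B0) (hB0 : (B0 : ℝ) ≤ exp (W + η))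
    (hD : 0.35 * W ≤ D) (hI0 : 0 ≤ I0) (hI : (I : ℝ) ≤ I0 * exp (D / 2)) :
    PP P I X B B' * P.A P.h * P.pc P.h ≤
      1152 * (I0 * K * R * R') * exp (4 * η) * exp (-(D / 400)) := by
  obtain ⟨cl, a, h1, _⟩ := Pool.Agent.Helper18.T5.PP_le_trip hP hX B B'
  have hMF : P.M' ∣ P.F P.h := hP.M'M.trans (hP.MF P.h le_rfl)
  have hF0 : 0 < P.F P.h := Pool.Agent.Helper18.T5.F_pos hP P.h le_rfl
  have hF'0 : 0 < P.F' P.h := Pool.Agent.Helper18.T5.F'_pos hP P.h le_rfl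
  have hle : P.M' ≤ P.F P.h := Nat.le_of_dvd hF0 hMF
  have hf0 : 0 < P.F' P.h / P.M' :=
    Nat.div_pos (Nat.le_of_dvd hF'0 (hP.M'F' P.h le_rfl)) hP.posM'
  refine h.hL0 hh h1 (Nat.mul_div_cancel' hP.M'M).symm
    (Nat.mul_div_cancel' (hP.M'F' P.h le_rfl)).symm ?_ hR hR' hη ?_ ?_ hv hv' hb' hB0 hD hI0 hI
  · have e := Nat.div_mul_cancel hMF
    calc (5 * (P.F P.h / P.M') + 1) * P.M' = 5 * (P.F P.h / P.M' * P.M') + P.M' := by ring
      _ = 5 * P.F P.h + P.M' := by rw [e]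
      _ ≤ 6 * P.F P.h := by omega
  · intro a L
    exact hB.arc a L
  · intro a L c
    have e := hB' _ hf0 hcop a L c
    refine le_trans (le_of_eq ?_) e
    congr 2
    ext u
    simp only [arcc, mem_filter, Nat.ModEq]
    tauto

namespace Num

variable [DecidableEq κ] {Kk : Finset κ}

/-- **the static block, numbers inserted** -/
theorem static (h : Num P D w s s' K) (hP : P.Ok Mk) (hT : Tg P I X Ir) (hMk : ∀ k, 0 < Mk k)
    (hK : ∀ r < P.h, ∀ i, ∀ y ∈ P.Y r, P.key r i y ∈ Kk ∧ P.key' r i y ∈ Kk) (B B' : Finset ℕ)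
    {I0 : ℝ} (hI0 : 0 ≤ I0) (hI : (I : ℝ) ≤ I0 * exp (D / 2))
    (lab1 : ∀ r, 1 ≤ r → r < P.h → D < s' r → (Ir r : ℝ) ≤ I0)
    (lab2 : ∀ r, 1 ≤ r → r < P.h → (Ir r : ℝ) ≤ I0 * exp (D / 2))
    (hbig : 80 * I0 * K ≤ exp (D / 200))
    (hL : PP P I X B B' * P.A P.h * P.pc P.h ≤ exp (-(D / 500))) {m : ℕ} (hm : 1 ≤ m) {Z : ℝ}
    (hZ : (P.h + 1) * w 0 + Real.log (3 * P.h + 1) + Z ≤ (m + 1) * D / 500) :
    PrG Mk Kk (fun w => Many P w I X B B' ((m + 1) ^ 2 ^ (4 * P.h))) (exp (-Z)) := by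
  have hK1 := h.K1
  have hD0 := h.D0
  have b1 : 80 * I0 * K * exp (-(D / 100)) ≤ exp (-(D / 500)) := by
    calc 80 * I0 * K * exp (-(D / 100)) ≤ exp (D / 200) * exp (-(D / 100)) :=
          mul_le_mul_of_nonneg_right hbig (exp_pos _).le
      _ = exp (D / 200 + -(D / 100)) := (exp_add _ _).symm
      _ ≤ _ := exp_le_exp.mpr (by linarith)
  have b2 : 2 * I0 * K * exp (-(D / 100)) ≤ exp (-(D / 500)) := by
    refine le_trans ?_ b1
    have : 0 ≤ I0 * K * exp (-(D / 100)) := by positivity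
    nlinarith
  have S := static_block hP hT hMk hK B B' (ρ := exp (-(D / 500))) (exp_pos _).le
    (fun r hr => h.hA hI0 hI b1 hr) (fun r hr h1 => h.hB hI0 lab1 lab2 b2 hr h1) hL
    (fun r hr => h.hG hr) h.hG' hm
  have h3 : (0 : ℝ) < 3 * P.h + 1 := by positivity
  refine PrG_mono (fun _ _ h => h) ?_ S
  calc (3 * P.h + 1) * exp ((P.h + 1) * w 0) * exp (-(D / 500)) ^ (m + 1)
      = exp (Real.log (3 * P.h + 1)) * exp ((P.h + 1) * w 0) *
          exp ((m + 1 : ℕ) * (-(D / 500))) := by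
        rw [Real.exp_log h3, ← exp_nat_mul]
    _ = exp (Real.log (3 * P.h + 1) + (P.h + 1) * w 0 + (m + 1 : ℕ) * (-(D / 500))) := by
        rw [exp_add, exp_add]
    _ ≤ exp (-Z) := by
        apply exp_le_exp.mpr
        push_cast
        linarith

end Num

end Pool.Agent.Helper87.SL
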